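import Mathlib
import Pool.Agent.H46.Faith.Local

set_option autoImplicit false

/-! Faithful covers when every cut is large compared with each of its edges (MP_2c3f2e_co, Q1,
partial).

A multigraph on the vertex type `V` with edge type `E` is given by the two ends `s e`, `t e` of each
edge.  The edge cut of `X` is the set of edges with exactly one end in `X`. -/

namespace Pool.Agent.Results.MP_2c3f2e_co.LogarithmicCuts

/-- The edge cut of `X`. -/
def cut {V E : Type} [DecidableEq V] [Fintype E] (s t : E → V) (X : Finset V) : Finset E :=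
  Finset.univ.filter (fun e => decide (s e ∈ X) ≠ decide (t e ∈ X))

/-- `S` is an even subgraph: every vertex has even degree in `S` (loops count twice). -/
def EvenSubgraph {V E : Type} [DecidableEq V] (s t : E → V) (S : Finset E) : Prop :=
  ∀ v : V, Even ((S.filter (fun e => s e = v)).card + (S.filter (fun e => t e = v)).card)

/-- Let `w` be a weighting by nonnegative integers with even total on every edge cut and let
`1 ≤ T ≤ L`.  Suppose that for every edge cut `C` and every edge `f` of `C`

* the total weight of the edges `e` of `C` with `2 ^ T * w e ≥ w f` is at least `512 * T * w f`;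
* if `0 < w f < 16 * T`, then `w f` is even, there are at most `2 ^ L` edges, and the weight of `C`
  is at least `1024 * T * L`.

Then there is a finite list of even subgraphs such that every edge `e` lies in exactly `w e` of
them. -/
theorem result :
    ∀ (V E : Type) [Fintype V] [DecidableEq V] [Fintype E] [DecidableEq E]
      (s t : E → V) (w : E → ℕ) (T L : ℕ), 1 ≤ T → T ≤ L →
      (∀ X : Finset V, Even (∑ e ∈ cut s t X, w e)) →
      (∀ X : Finset V, ∀ f ∈ cut s t X,
        512 * T * w f ≤ ∑ e ∈ (cut s t X).filter (fun e => w f ≤ 2 ^ T * w e), w e) →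
      (∀ X : Finset V, ∀ f ∈ cut s t X, 0 < w f → w f < 16 * T →
        Even (w f) ∧ Fintype.card E ≤ 2 ^ L ∧ 1024 * T * L ≤ ∑ e ∈ cut s t X, w e) →
      ∃ H : List (Finset E), (∀ S ∈ H, EvenSubgraph s t S) ∧
        ∀ e : E, (H.filter (fun S => decide (e ∈ S))).length = w e := by
  intro V E _ _ _ _ s t w T L hT hTL heven hcut hlight
  have hc : ∀ X : Finset V, cut s t X = Pool.Agent.H46.Faith.dl s t X := by
    intro X
    ext e
    rw [Pool.Agent.H46.Faith.mem_dl]
    unfold cut
    rw [Finset.mem_filter]
    simp only [Finset.mem_univ, true_and, ne_eq, decide_eq_decide]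
  obtain ⟨N, H, h1, h2⟩ := Pool.Agent.H46.Faith.local_main s t w T L hT hTL
    (fun X => by rw [← hc]; exact heven X)
    (fun X f hf => by
      rw [← hc] at hf ⊢
      convert hcut X f hf)
    (fun X f hf h0 hl => by
      rw [← hc] at hf ⊢
      exact hlight X f hf h0 hl)
  obtain ⟨Ls, _, h3, h4⟩ := Pool.Agent.H46.Faith.list_form s t w N H h1 h2
  exact ⟨Ls, h3, h4⟩

/-- The case of even weights on a multigraph with at most `2 ^ T` edges. -/
theorem even_weights (V E : Type) [Fintype V] [DecidableEq V] [Fintype E] [DecidableEq E]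
    (s t : E → V) (w : E → ℕ) (T : ℕ) (hT : 1 ≤ T) (hE : Fintype.card E ≤ 2 ^ T)
    (heven : ∀ e, Even (w e))
    (hcut : ∀ X : Finset V, ∀ f ∈ cut s t X, 0 < w f →
      1024 * T * (T + w f) ≤ ∑ e ∈ cut s t X, w e) :
    ∃ H : List (Finset E), (∀ S ∈ H, EvenSubgraph s t S) ∧
      ∀ e : E, (H.filter (fun S => decide (e ∈ S))).length = w e := by
  refine result V E s t w T T hT le_rfl (fun X => Finset.even_sum _ (fun e _ => heven e)) ?_ ?_
  · intro X f hf
    rcases Nat.eq_zero_or_pos (w f) with h0 | h0
    · rw [h0, mul_zero]; exact Nat.zero_le _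
    · have h1 := hcut X f hf h0
      rw [← Finset.sum_filter_add_sum_filter_not (cut s t X) (fun e => w f ≤ 2 ^ T * w e)] at h1
      have h2 : ∑ e ∈ (cut s t X).filter (fun e => ¬ w f ≤ 2 ^ T * w e), w e ≤ w f := by
        have h3 : 2 ^ T * ∑ e ∈ (cut s t X).filter (fun e => ¬ w f ≤ 2 ^ T * w e), w e ≤
            2 ^ T * w f := by
          rw [Finset.mul_sum]
          calc ∑ e ∈ (cut s t X).filter (fun e => ¬ w f ≤ 2 ^ T * w e), 2 ^ T * w e
              ≤ ∑ _e ∈ (cut s t X).filter (fun e => ¬ w f ≤ 2 ^ T * w e), w f := by
                refine Finset.sum_le_sum (fun e he => ?_)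
                have := (Finset.mem_filter.1 he).2
                omega
            _ ≤ 2 ^ T * w f := by
                rw [Finset.sum_const, smul_eq_mul]
                refine Nat.mul_le_mul_right _ (le_trans ?_ hE)
                rw [← Finset.card_univ]
                exact Finset.card_le_card (Finset.subset_univ _)
        exact Nat.le_of_mul_le_mul_left h3 (by positivity)
      have h4 : 1024 * T * (T + w f) = 1024 * T * T + 512 * T * w f + 512 * T * w f := by ring
      have h5 : w f ≤ 512 * T * w f := Nat.le_mul_of_pos_left _ (by positivity)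
      omega
  · intro X f hf h0 _
    refine ⟨heven f, hE, ?_⟩
    have h1 := hcut X f hf h0
    have h2 : 1024 * T * T ≤ 1024 * T * (T + w f) := Nat.mul_le_mul_left _ (by omega)
    omega

end Pool.Agent.Results.MP_2c3f2e_co.LogarithmicCuts
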