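import Mathlib
import Pool.Agent.H46.Faith.Main

set_option autoImplicit false

/-! Faithful covers of eulerian weightings (MP_2c3f2e_co, Q1, partial).

A multigraph on the vertex type `V` with edge type `E` is given by the two ends `s e`, `t e` of each
edge.  The edge cut of `X` is the set of edges with exactly one end in `X`. -/

namespace Pool.Agent.Results.MP_2c3f2e_co.PaletteCuts

/-- The edge cut of `X`. -/
def cut {V E : Type} [DecidableEq V] [Fintype E] (s t : E → V) (X : Finset V) : Finset E :=
  Finset.univ.filter (fun e => decide (s e ∈ X) ≠ decide (t e ∈ X))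

/-- `S` is an even subgraph: every vertex has even degree in `S` (loops count twice). -/
def EvenSubgraph {V E : Type} [DecidableEq V] (s t : E → V) (S : Finset E) : Prop :=
  ∀ v : V, Even ((S.filter (fun e => s e = v)).card + (S.filter (fun e => t e = v)).card)

/-- Let `w` be a weighting by nonnegative integers with even total on every edge cut, and let `κ`
assign to every edge an integer with `w e ≤ κ e ≤ N`.  Suppose that for every nonempty edge cut `C`,
if `k` is the largest value of `κ` on `C`, then the sum of `min (w e) (k - w e) ((k - 1) / 2)` over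
the edges of `C` with `κ e = k` is at least `2 (k - 1)` (written below with both sides doubled).
Then there are `N` even subgraphs such that every edge `e` lies in exactly `w e` of them. -/
theorem result :
    ∀ (V E : Type) [Fintype V] [DecidableEq V] [Fintype E] [DecidableEq E]
      (s t : E → V) (w κ : E → ℕ) (N : ℕ),
      (∀ X : Finset V, Even (∑ e ∈ cut s t X, w e)) →
      (∀ e, w e ≤ κ e ∧ κ e ≤ N) →
      (∀ X : Finset V, ∀ f ∈ cut s t X, (∀ e ∈ cut s t X, κ e ≤ κ f) →
        4 * (κ f - 1) ≤ ∑ e ∈ (cut s t X).filter (fun e => κ e = κ f),
          min (2 * w e) (min (2 * (κ e - w e)) (κ e - 1))) →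
      ∃ L : List (Finset E), L.length = N ∧ (∀ S ∈ L, EvenSubgraph s t S) ∧
        ∀ e : E, (L.filter (fun S => decide (e ∈ S))).length = w e := by
  intro V E _ _ _ _ s t w κ N heven hκ hcut
  exact Pool.Agent.H46.Faith.main_list s t w κ N (fun e => (hκ e).1) (fun e => (hκ e).2) heven hcut

end Pool.Agent.Results.MP_2c3f2e_co.PaletteCuts
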