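import Mathlib
import Pool.Agent.H46.Faith.Final3

set_option autoImplicit false

/-! Seymour's even-weights conjecture holds asymptotically: faithful covers for weights which are at
least polylogarithmic in the number of edges, when every cut has more than `2 + ε` times the weight
of each of its edges (MP_2c3f2e_co, Q1, partial).

A multigraph on the vertex type `V` with edge type `E` is given by the two ends `s e`, `t e` of each
edge.  The edge cut of `X` is the set of edges with exactly one end in `X`. -/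

namespace Pool.Agent.Results.MP_2c3f2e_co.TwoPlusEpsilon

/-- The edge cut of `X`. -/
def cut {V E : Type} [DecidableEq V] [Fintype E] (s t : E → V) (X : Finset V) : Finset E :=
  Finset.univ.filter (fun e => decide (s e ∈ X) ≠ decide (t e ∈ X))

/-- `S` is an even subgraph: every vertex has even degree in `S` (loops count twice). -/
def EvenSubgraph {V E : Type} [DecidableEq V] (s t : E → V) (S : Finset E) : Prop :=
  ∀ v : V, Even ((S.filter (fun e => s e = v)).card + (S.filter (fun e => t e = v)).card)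

/-- Let `h ≥ 64`, `d ≥ 1` and `L ≥ 1` be integers, let `G` be a multigraph with at most
`2 ^ (L - 1)` edges and let `w` be a weighting by nonnegative integers (even or odd) with even total
on every edge cut, such that

* every value of `w` is `0` or at least `4 * (h + 1) * h * 8 ^ d * L ^ (d + 1)`;
* for every edge cut `C` and every edge `f` of `C`, the weight of `C` is at least
  `2 * (1 + 1 / h) / (1 - 1 / h - 1 / 2 ^ d)` times the weight of `f`.

Then there is a finite list of even subgraphs such that every edge `e` lies in exactly `w e` of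
them. -/
theorem result :
    ∀ (V E : Type) [Fintype V] [DecidableEq V] [Fintype E] [DecidableEq E]
      (s t : E → V) (w : E → ℕ) (L h d : ℕ), 1 ≤ L → 64 ≤ h → 1 ≤ d →
      2 * Fintype.card E ≤ 2 ^ L →
      (∀ X : Finset V, Even (∑ e ∈ cut s t X, w e)) →
      (∀ e : E, w e = 0 ∨ 4 * (h + 1) * h * 8 ^ d * L ^ (d + 1) ≤ w e) →
      (∀ X : Finset V, ∀ f ∈ cut s t X,
        2 * (h + 1) * 2 ^ d * w f ≤ (h * 2 ^ d - h - 2 ^ d) * ∑ e ∈ cut s t X, w e) →
      ∃ H : List (Finset E), (∀ S ∈ H, EvenSubgraph s t S) ∧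
        ∀ e : E, (H.filter (fun S => decide (e ∈ S))).length = w e := by
  intro V E _ _ _ _ s t w L h d hL hh hd hE heven hbig hcut
  have hc : ∀ X : Finset V, cut s t X = Pool.Agent.H46.Faith.dl s t X :=
    fun X => Pool.Agent.H46.Faith.cut_eq_dl s t X
  have hw := Pool.Agent.H46.Faith.large_three s t w L h d hL hh hd hE
    (fun X => by rw [← hc]; exact heven X) hbig
    (fun X f hf => by
      rw [← hc] at hf ⊢
      exact hcut X f hf)
  exact Pool.Agent.H46.Faith.list_of_cov s t w hw

/-- The form with `ε`: for every `ε > 0` there is `k` such that, for multigraphs with at most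
`2 ^ (L - 1)` edges and weightings with even total on every cut and values `0` or at least
`k * L ^ k`, the condition `w(C) ≥ (2 + ε) w(f)` for all cuts `C` and `f ∈ C` suffices. -/
theorem epsilon_form (ε : ℝ) (hε : 0 < ε) : ∃ k : ℕ,
    ∀ (V E : Type) [Fintype V] [DecidableEq V] [Fintype E] [DecidableEq E]
      (s t : E → V) (w : E → ℕ) (L : ℕ), 1 ≤ L → 2 * Fintype.card E ≤ 2 ^ L →
      (∀ X : Finset V, Even (∑ e ∈ cut s t X, w e)) →
      (∀ e : E, w e = 0 ∨ k * L ^ k ≤ w e) →
      (∀ X : Finset V, ∀ f ∈ cut s t X, (2 + ε) * (w f : ℝ) ≤ ((∑ e ∈ cut s t X, w e : ℕ) : ℝ)) →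
      ∃ H : List (Finset E), (∀ S ∈ H, EvenSubgraph s t S) ∧
        ∀ e : E, (H.filter (fun S => decide (e ∈ S))).length = w e := by
  obtain ⟨d, hd⟩ := exists_nat_gt (max 6 (8 / ε))
  have hd6 : (6 : ℝ) < d := lt_of_le_of_lt (le_max_left _ _) hd
  have hd8 : 8 / ε < d := lt_of_le_of_lt (le_max_right _ _) hd
  have hd6' : 6 < d := by exact_mod_cast hd6
  have h2d : (d : ℝ) ≤ 2 ^ d := by exact_mod_cast Nat.lt_two_pow_self.le
  have hK64 : 64 ≤ 2 ^ d := by
    calc 64 = 2 ^ 6 := by norm_num
      _ ≤ 2 ^ d := Nat.pow_le_pow_right (by norm_num) hd6'.le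
  obtain ⟨K, hK⟩ : ∃ K, K = 2 ^ d := ⟨_, rfl⟩
  rw [← hK] at hK64
  have hKr : (K : ℝ) = 2 ^ d := by rw [hK]; push_cast; rfl
  have hK64r : (64 : ℝ) ≤ K := by exact_mod_cast hK64
  have hεK : 8 ≤ ε * K := by
    have h1 : 8 / ε ≤ K := by rw [hKr]; linarith
    rw [div_le_iff₀ hε] at h1
    linarith
  refine ⟨max (4 * (K + 1) * K * 8 ^ d) (d + 1), ?_⟩
  intro V E _ _ _ _ s t w L hL hE heven hbig hcut
  refine result V E s t w L K d hL hK64 (by omega) hE heven ?_ ?_
  · intro e
    rcases hbig e with h | h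
    · exact Or.inl h
    · right
      refine le_trans ?_ h
      exact Nat.mul_le_mul (le_max_left _ _) (Nat.pow_le_pow_right hL (le_max_right _ _))
  · intro X f hf
    rw [← hK]
    have h1 := hcut X f hf
    obtain ⟨N, hN⟩ : ∃ N, N = K * K - K - K := ⟨_, rfl⟩
    have hKK : 64 * K ≤ K * K := Nat.mul_le_mul_right K hK64
    have hNK : N + K + K = K * K := by omega
    rw [← hN]
    have hNr : (N : ℝ) + K + K = K * K := by exact_mod_cast hNK
    have hN0 : (0 : ℝ) ≤ N := Nat.cast_nonneg _
    have h2 : (N : ℝ) * ((2 + ε) * (w f : ℝ)) ≤ N * ((∑ e ∈ cut s t X, w e : ℕ) : ℝ) :=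
      mul_le_mul_of_nonneg_left h1 hN0
    have h3 : 2 * ((K : ℝ) + 1) * K ≤ N * (2 + ε) := by
      have h4 : (N : ℝ) = K * (K - 2) := by linarith
      rw [h4]
      have h5 : 2 * ((K : ℝ) + 1) ≤ (K - 2) * (2 + ε) := by nlinarith
      have h6 := mul_le_mul_of_nonneg_left h5 (by linarith : (0 : ℝ) ≤ K)
      linarith
    have h7 := mul_le_mul_of_nonneg_right h3 (Nat.cast_nonneg (w f) : (0 : ℝ) ≤ w f)
    have h8 : ((2 * (K + 1) * K * w f : ℕ) : ℝ) ≤ ((N * ∑ e ∈ cut s t X, w e : ℕ) : ℝ) := by
      push_cast at h2 ⊢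
      linarith
    exact_mod_cast h8

end Pool.Agent.Results.MP_2c3f2e_co.TwoPlusEpsilon
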