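import Mathlib
import Pool.Agent.H31.Near.Fin

set_option autoImplicit false

/-! Faithful covers of weightings whose values lie in windows (MP_2c3f2e_co, Q1, partial).

A multigraph on the vertex type `V` with edge type `E` is given by the two ends `s e`, `t e` of each
edge.  The edge cut of `X` is the set of edges with exactly one end in `X`. -/

namespace Pool.Agent.Results.MP_2c3f2e_co.WindowCovers

/-- The edge cut of `X`. -/
def cut {V E : Type} [DecidableEq V] [Fintype E] (s t : E → V) (X : Finset V) : Finset E :=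
  Finset.univ.filter (fun e => decide (s e ∈ X) ≠ decide (t e ∈ X))

/-- `S` is an even subgraph: every vertex has even degree in `S` (loops count twice). -/
def EvenSubgraph {V E : Type} [DecidableEq V] (s t : E → V) (S : Finset E) : Prop :=
  ∀ v : V, Even ((S.filter (fun e => s e = v)).card + (S.filter (fun e => t e = v)).card)

/-- Let `w` be a weighting by nonnegative integers with even total on every edge cut, let `n ≥ 2`,
`a, b ≥ 1`, and let `k, m, c` be integer functions on the edges such that every edge cut `C` either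
consists of two edges of the same weight, or satisfies the following for every edge `f` of `C` at
which `k` is largest on `C`, where `C'` is the set of the edges of `C` with `k e = k f`:

* the sum of `m` over `C'` is at least `2 * k f`;
* if `m f > 0`, then the sum of `c` over `C'` without `f` is at least `n - 1`.

Put `β = 4 * a + 6 * b` and `F e = (k e - m e) * (n - 2 * c e)`.  If every weight `w e` is the sum of
`(n * k e - F e) * β` and a number `r` which is `0` or `1`, or between `4` and `2 * F e * β - 3`, or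
`2 * F e * β` or `2 * F e * β + 1`, then there is a finite list of even subgraphs such that every
edge `e` lies in exactly `w e` of them. -/
theorem result :
    ∀ (V E : Type) [Fintype V] [DecidableEq V] [Fintype E] [DecidableEq E]
      (s t : E → V) (w k m c : E → ℕ) (n a b : ℕ), 2 ≤ n → 1 ≤ a → 1 ≤ b →
      (∀ X : Finset V, Even (∑ e ∈ cut s t X, w e)) →
      (∀ X : Finset V, (∃ e f, e ≠ f ∧ cut s t X = {e, f} ∧ w e = w f) ∨
        ∀ f ∈ cut s t X, (∀ e ∈ cut s t X, k e ≤ k f) →
          2 * k f ≤ ∑ e ∈ (cut s t X).filter (fun e => k e = k f), m e ∧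
          (0 < m f → n - 1 ≤ ∑ e ∈ ((cut s t X).erase f).filter (fun e => k e = k f), c e)) →
      (∀ e, ∃ r, w e = (n * k e - (k e - m e) * (n - 2 * c e)) * (4 * a + 6 * b) + r ∧
        (r ≤ 1 ∨ (4 ≤ r ∧ r + 3 ≤ 2 * ((k e - m e) * (n - 2 * c e)) * (4 * a + 6 * b)) ∨
          (2 * ((k e - m e) * (n - 2 * c e)) * (4 * a + 6 * b) ≤ r ∧
            r ≤ 2 * ((k e - m e) * (n - 2 * c e)) * (4 * a + 6 * b) + 1))) →
      ∃ H : List (Finset E), (∀ S ∈ H, EvenSubgraph s t S) ∧
        ∀ e : E, (H.filter (fun S => decide (e ∈ S))).length = w e := by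
  intro V E _ _ _ _ s t w k m c n a b hn ha hb heven hcut hwin
  have hc : ∀ X : Finset V, cut s t X = Pool.Agent.H46.Faith.dl s t X :=
    fun X => Pool.Agent.H46.Faith.cut_eq_dl s t X
  have hw := Pool.Agent.H31.Near.hier2 n a b hn ha hb k m c w
    (by
      intro e
      obtain ⟨r, hr1, hr2⟩ := hwin e
      refine ⟨by omega, ?_⟩
      rw [hr1, Nat.add_sub_cancel_left]
      exact hr2)
    _ s t le_rfl (fun X => by rw [← hc]; exact heven X)
    (fun X => by rw [← hc]; exact hcut X)
  exact Pool.Agent.H46.Faith.list_of_cov s t w hw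

/-- The form with a set `L` of edges which has at least `r` edges in every edge cut which is not
empty and does not consist of two edges of the same weight: the weights on `L` may lie anywhere
between `4 * (r - 1) * β + 4` and `(2 * (r - 1) ^ 2 + 2) * β - 3`, the weights off `L` may be `0` or
`1` or anything between `4` and `2 * r ^ 2 * β - 3`, where `β = 4 * a + 6 * b`. -/
theorem spanning_form (V E : Type) [Fintype V] [DecidableEq V] [Fintype E] [DecidableEq E]
    (s t : E → V) (w : E → ℕ) (L : Finset E) (r a b : ℕ) (hr : 3 ≤ r) (ha : 1 ≤ a) (hb : 1 ≤ b)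
    (heven : ∀ X : Finset V, Even (∑ e ∈ cut s t X, w e))
    (hcut : ∀ X : Finset V, cut s t X = ∅ ∨ (∃ e f, e ≠ f ∧ cut s t X = {e, f} ∧ w e = w f) ∨
      r ≤ (L ∩ cut s t X).card)
    (hL : ∀ e ∈ L, 4 * (r - 1) * (4 * a + 6 * b) + 4 ≤ w e ∧
      w e + 3 ≤ (2 * (r - 1) ^ 2 + 2) * (4 * a + 6 * b))
    (hoff : ∀ e ∉ L, w e ≤ 1 ∨ (4 ≤ w e ∧ w e + 3 ≤ 2 * r ^ 2 * (4 * a + 6 * b))) :
    ∃ H : List (Finset E), (∀ S ∈ H, EvenSubgraph s t S) ∧
      ∀ e : E, (H.filter (fun S => decide (e ∈ S))).length = w e := by
  classical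
  refine result V E s t w (fun _ => r) (fun e => if e ∈ L then 2 else 0)
    (fun e => if e ∈ L then 1 else 0) r a b (by omega) ha hb heven ?_ ?_
  · intro X
    rcases hcut X with h | h | h
    · right
      intro f hf
      rw [h] at hf
      simp at hf
    · exact Or.inl h
    · right
      intro f hf _
      have h1 : ∀ A : Finset E, A.filter (fun _ => r = r) = A := by
        intro A
        rw [Finset.filter_true_of_mem]
        intro _ _
        rfl
      show 2 * r ≤ ∑ e ∈ (cut s t X).filter (fun _ => r = r), (if e ∈ L then 2 else 0) ∧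
        (0 < (if f ∈ L then 2 else 0) →
          r - 1 ≤ ∑ e ∈ ((cut s t X).erase f).filter (fun _ => r = r), (if e ∈ L then 1 else 0))
      rw [h1, h1]
      have h2 : ∀ A : Finset E, ∑ e ∈ A, (if e ∈ L then 2 else 0) = 2 * (L ∩ A).card := by
        intro A
        rw [← Finset.sum_filter, Finset.sum_const, smul_eq_mul, mul_comm]
        congr 2
        ext e
        simp [and_comm]
      have h3 : ∀ A : Finset E, ∑ e ∈ A, (if e ∈ L then 1 else 0) = (L ∩ A).card := by
        intro A
        rw [← Finset.sum_filter, Finset.sum_const, smul_eq_mul, mul_one]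
        congr 1
        ext e
        simp [and_comm]
      refine ⟨?_, ?_⟩
      · rw [h2]
        omega
      · intro hmf
        have hfL : f ∈ L := by
          by_contra hfL
          rw [if_neg hfL] at hmf
          omega
        rw [h3]
        have h4 : L ∩ (cut s t X).erase f = (L ∩ cut s t X).erase f := by
          ext e
          simp only [Finset.mem_inter, Finset.mem_erase]
          tauto
        rw [h4, Finset.card_erase_of_mem (Finset.mem_inter.2 ⟨hfL, hf⟩)]
        omega
  · intro e
    obtain ⟨β, hβ⟩ : ∃ β, β = 4 * a + 6 * b := ⟨_, rfl⟩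
    rw [← hβ] at hL hoff ⊢
    obtain ⟨q, rfl⟩ : ∃ q, r = q + 2 := ⟨r - 2, by omega⟩
    by_cases he : e ∈ L
    · obtain ⟨h1, h2⟩ := hL e he
      simp only [if_pos he]
      have e1 : q + 2 - 2 = q := by omega
      have e3 : q + 2 - 1 = q + 1 := by omega
      have e4 : (q + 2) * (q + 2) - q * q = 4 * (q + 1) := by
        have : (q + 2) * (q + 2) = q * q + 4 * (q + 1) := by ring
        omega
      rw [e3] at h1 h2
      simp only [mul_one]
      rw [e1, e4]
      refine ⟨w e - 4 * (q + 1) * β, by omega, Or.inr (Or.inl ⟨by omega, ?_⟩)⟩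
      have e5 : (2 * (q + 1) ^ 2 + 2) * β = 4 * (q + 1) * β + 2 * (q * q) * β := by ring
      omega
    · simp only [if_neg he]
      have e1 : (q + 2) * (q + 2) - (q + 2 - 0) * (q + 2 - 2 * 0) = 0 := by simp
      have e2 : 2 * ((q + 2 - 0) * (q + 2 - 2 * 0)) * β = 2 * (q + 2) ^ 2 * β := by
        simp only [Nat.sub_zero, mul_zero]; ring
      rw [e1, e2]
      refine ⟨w e, by omega, ?_⟩
      rcases hoff e he with h | h
      · exact Or.inl h
      · exact Or.inr (Or.inl h)

/-- Three-edge-connected graphs (or graphs whose other cuts are cuts of two edges of the same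
weight): all weights between `A` and `5 * A / 4 - 28`, for every `A ≥ 116`. -/
theorem three_edge_connected (V E : Type) [Fintype V] [DecidableEq V] [Fintype E] [DecidableEq E]
    (s t : E → V) (w : E → ℕ) (A : ℕ) (hA : 116 ≤ A)
    (heven : ∀ X : Finset V, Even (∑ e ∈ cut s t X, w e))
    (hcut : ∀ X : Finset V, cut s t X = ∅ ∨ (∃ e f, e ≠ f ∧ cut s t X = {e, f} ∧ w e = w f) ∨
      3 ≤ (cut s t X).card)
    (hw : ∀ e, A ≤ w e ∧ 4 * w e + 112 ≤ 5 * A) :
    ∃ H : List (Finset E), (∀ S ∈ H, EvenSubgraph s t S) ∧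
      ∀ e : E, (H.filter (fun S => decide (e ∈ S))).length = w e := by
  classical
  obtain ⟨a, b, ha, hb, h1, h2⟩ : ∃ a b : ℕ, 1 ≤ a ∧ 1 ≤ b ∧ 8 * (4 * a + 6 * b) + 4 ≤ A ∧
      A < 8 * (4 * a + 6 * b) + 20 := by
    rcases Nat.mod_two_eq_zero_or_one ((A - 4) / 16) with h | h
    · exact ⟨((A - 4) / 16 * 2 - 12) / 4, 2, by omega, by omega, by omega, by omega⟩
    · exact ⟨((A - 4) / 16 * 2 - 6) / 4, 1, by omega, by omega, by omega, by omega⟩
  refine spanning_form V E s t w Finset.univ 3 a b le_rfl ha hb heven ?_ ?_ ?_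
  · intro X
    rw [Finset.univ_inter]
    exact hcut X
  · intro e _
    obtain ⟨h3, h4⟩ := hw e
    constructor
    · omega
    · norm_num
      omega
  · intro e he
    exact absurd (Finset.mem_univ e) he

end Pool.Agent.Results.MP_2c3f2e_co.WindowCovers
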